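import Pool.Agent.FTU.Stmts

/-!
# Row JFD of squad FTU
-/

set_option autoImplicit false

open MeasureTheory Complex ProbabilityTheory MvPolynomial

noncomputable section

namespace Pool.Agent.FTU.H8

open Pool.Agent.Helper49_Pauli
open Pool.Agent.MBX

/-- the left side -/
def FF {ι : Type} [Fintype ι] (S : Sys ι) (e : ι → ℝ) (c : Fin 3) (p q r : ℕ) (x y z : ℝ) : ℝ :=
  ∑ i, e i * (S.c i * S.e i c * S.k i 0 ^ p * S.k i 1 ^ q * S.k i 2 ^ r *
    Real.cos (S.k i 0 * x + S.k i 1 * y + S.k i 2 * z - S.t i +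
      ((p + q + r : ℕ) : ℝ) * (Real.pi / 2)))

theorem cos_step (t u : ℝ) (n m : ℕ) (h : m = n + 1) :
    Real.cos (t + (m : ℝ) * (Real.pi / 2)) = -Real.sin (t + (n : ℝ) * (Real.pi / 2)) := by
  have e : t + (m : ℝ) * (Real.pi / 2) = (t + (n : ℝ) * (Real.pi / 2)) + Real.pi / 2 := by
    rw [h]; push_cast; ring
  rw [e, Real.cos_add_pi_div_two]

theorem hd0 {ι : Type} [Fintype ι] (S : Sys ι) (e : ι → ℝ) (c : Fin 3) (p q r : ℕ) (x y z : ℝ) :
    HasDerivAt (fun s => FF S e c p q r s y z) (FF S e c (p + 1) q r x y z) x := by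
  unfold FF
  apply HasDerivAt.fun_sum
  intro i _
  have h1 : HasDerivAt (fun s : ℝ => S.k i 0 * s + S.k i 1 * y + S.k i 2 * z - S.t i +
      ((p + q + r : ℕ) : ℝ) * (Real.pi / 2)) (S.k i 0) x := by
    have := (((hasDerivAt_id x).const_mul (S.k i 0)).add_const
      (S.k i 1 * y + S.k i 2 * z - S.t i + ((p + q + r : ℕ) : ℝ) * (Real.pi / 2)))
    simp only [mul_one, id] at this
    refine this.congr_of_eventuallyEq (Filter.Eventually.of_forall fun s => ?_)
    show _ = _
    ring
  have h2 := (h1.cos.const_mul (S.c i * S.e i c * S.k i 0 ^ p * S.k i 1 ^ q * S.k i 2 ^ r)).const_mul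
    (e i)
  refine h2.congr_deriv ?_
  rw [cos_step _ 0 (p + q + r) (p + 1 + q + r) (by ring)]
  ring

theorem hd1 {ι : Type} [Fintype ι] (S : Sys ι) (e : ι → ℝ) (c : Fin 3) (p q r : ℕ) (x y z : ℝ) :
    HasDerivAt (fun s => FF S e c p q r x s z) (FF S e c p (q + 1) r x y z) y := by
  unfold FF
  apply HasDerivAt.fun_sum
  intro i _
  have h1 : HasDerivAt (fun s : ℝ => S.k i 0 * x + S.k i 1 * s + S.k i 2 * z - S.t i +
      ((p + q + r : ℕ) : ℝ) * (Real.pi / 2)) (S.k i 1) y := by
    have := (((hasDerivAt_id y).const_mul (S.k i 1)).add_const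
      (S.k i 0 * x + S.k i 2 * z - S.t i + ((p + q + r : ℕ) : ℝ) * (Real.pi / 2)))
    simp only [mul_one, id] at this
    refine this.congr_of_eventuallyEq (Filter.Eventually.of_forall fun s => ?_)
    show _ = _
    ring
  have h2 := (h1.cos.const_mul (S.c i * S.e i c * S.k i 0 ^ p * S.k i 1 ^ q * S.k i 2 ^ r)).const_mul
    (e i)
  refine h2.congr_deriv ?_
  rw [cos_step _ 0 (p + q + r) (p + (q + 1) + r) (by ring)]
  ring

theorem hd2 {ι : Type} [Fintype ι] (S : Sys ι) (e : ι → ℝ) (c : Fin 3) (p q r : ℕ) (x y z : ℝ) :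
    HasDerivAt (fun s => FF S e c p q r x y s) (FF S e c p q (r + 1) x y z) z := by
  unfold FF
  apply HasDerivAt.fun_sum
  intro i _
  have h1 : HasDerivAt (fun s : ℝ => S.k i 0 * x + S.k i 1 * y + S.k i 2 * s - S.t i +
      ((p + q + r : ℕ) : ℝ) * (Real.pi / 2)) (S.k i 2) z := by
    have := (((hasDerivAt_id z).const_mul (S.k i 2)).add_const
      (S.k i 0 * x + S.k i 1 * y - S.t i + ((p + q + r : ℕ) : ℝ) * (Real.pi / 2)))
    simp only [mul_one, id] at this
    refine this.congr_of_eventuallyEq (Filter.Eventually.of_forall fun s => ?_)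
    show _ = _
    ring
  have h2 := (h1.cos.const_mul (S.c i * S.e i c * S.k i 0 ^ p * S.k i 1 ^ q * S.k i 2 ^ r)).const_mul
    (e i)
  refine h2.congr_deriv ?_
  rw [cos_step _ 0 (p + q + r) (p + q + (r + 1)) (by ring)]
  ring

/-- the right side -/
def GG {n : ℕ} (A B D : Fin n → ℝ → ℝ) (p q r : ℕ) (x y z : ℝ) : ℝ :=
  ∑ a, iteratedDeriv p (A a) x * iteratedDeriv q (B a) y * iteratedDeriv r (D a) z

theorem hid {f : ℝ → ℝ} (hf : ContDiff ℝ (⊤ : ℕ∞) f) (p : ℕ) (x : ℝ) :
    HasDerivAt (iteratedDeriv p f) (iteratedDeriv (p + 1) f x) x := by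
  rw [iteratedDeriv_succ]
  have h : Differentiable ℝ (iteratedDeriv p f) :=
    hf.differentiable_iteratedDeriv p (by exact_mod_cast WithTop.coe_lt_top p)
  exact (h x).hasDerivAt

/-- row JFD -/
theorem jfd : JfdStmt := by
  intro ι _ S e c n A B D hA hB hD h p q r z
  have h0 : ∀ x y z : ℝ, FF S e c 0 0 0 x y z = GG A B D 0 0 0 x y z := by
    intro x y z
    have := h ![x, y, z]
    unfold FF GG
    simp only [iteratedDeriv_zero]
    have e0 : (![x, y, z] : Fin 3 → ℝ) 0 = x := rfl
    have e1 : (![x, y, z] : Fin 3 → ℝ) 1 = y := rfl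
    have e2 : (![x, y, z] : Fin 3 → ℝ) 2 = z := rfl
    rw [e0, e1, e2] at this
    rw [← this]
    unfold Sys.fld
    refine Finset.sum_congr rfl fun i _ => ?_
    have e3 : dot (S.k i) ![x, y, z] = S.k i 0 * x + S.k i 1 * y + S.k i 2 * z := by
      unfold dot
      rw [Fin.sum_univ_three]
      rfl
    rw [e3]
    simp only [pow_zero, mul_one, Nat.add_zero, Nat.cast_zero, zero_mul, add_zero]
    ring
  have h1 : ∀ p : ℕ, ∀ x y z : ℝ, FF S e c p 0 0 x y z = GG A B D p 0 0 x y z := by
    intro p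
    induction p with
    | zero => exact h0
    | succ p ih =>
      intro x y z
      have a1 := hd0 S e c p 0 0 x y z
      have a2 : (fun s => FF S e c p 0 0 s y z) = fun s => GG A B D p 0 0 s y z := by
        funext s; exact ih s y z
      rw [a2] at a1
      refine a1.unique ?_
      unfold GG
      apply HasDerivAt.fun_sum
      intro a _
      exact ((hid (hA a) p x).mul_const _).mul_const _
  have h2 : ∀ q : ℕ, ∀ x y z : ℝ, FF S e c p q 0 x y z = GG A B D p q 0 x y z := by
    intro q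
    induction q with
    | zero => exact h1 p
    | succ q ih =>
      intro x y z
      have a1 := hd1 S e c p q 0 x y z
      have a2 : (fun s => FF S e c p q 0 x s z) = fun s => GG A B D p q 0 x s z := by
        funext s; exact ih x s z
      rw [a2] at a1
      refine a1.unique ?_
      unfold GG
      apply HasDerivAt.fun_sum
      intro a _
      exact ((hid (hB a) q y).const_mul _).mul_const _
  have h3 : ∀ r : ℕ, ∀ x y z : ℝ, FF S e c p q r x y z = GG A B D p q r x y z := by
    intro r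
    induction r with
    | zero => exact h2 q
    | succ r ih =>
      intro x y z
      have a1 := hd2 S e c p q r x y z
      have a2 : (fun s => FF S e c p q r x y s) = fun s => GG A B D p q r x y s := by
        funext s; exact ih x y s
      rw [a2] at a1
      refine a1.unique ?_
      unfold GG
      apply HasDerivAt.fun_sum
      intro a _
      exact (hid (hD a) r z).const_mul _
  have h4 := h3 r 0 0 z
  unfold FF GG at h4
  rw [← h4]
  refine Finset.sum_congr rfl fun i _ => ?_
  unfold Sys.jm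
  congr 3
  ring

end Pool.Agent.FTU.H8
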